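import Mathlib
import Pool.Agent.TH487.RP.Cor

namespace Pool.Agent.Results.MP_a3a416_nt.HalfOfEveryOrbit

/-- The even indices `k` with `2 ≤ k ≤ p - 3` and `gcd (k - 1, p - 1) = m`.  (The characters
`ω^(k-1)` of these indices, `ω` the Teichmüller character of `p`, are odd characters of exact
order `(p - 1) / m`; together with `ω^(p-2)` when `m = 1`, they form one Galois orbit.) -/
def orbit (p m : ℕ) : Finset ℕ :=
  (Finset.Icc 2 (p - 3)).filter (fun k => Even k ∧ Nat.gcd (k - 1) (p - 1) = m)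

/-- The indices `k` of the orbit that are irregular for `p`: `p` divides the numerator of the
Bernoulli number `B_k`. -/
noncomputable def irregularIndices (p m : ℕ) : Finset ℕ :=
  (orbit p m).filter (fun k => (p : ℤ) ∣ (bernoulli k).num)

/-- For every prime `p ≥ 5` and every odd divisor `m` of `p - 1`, with `d = (p - 1) / m`:
the orbit has `φ(d)` elements (`φ(d) - 1` if `m = 1`); the number `r` of its irregular indices
satisfies `p^(2r) ≤ (p (log p)^2)^φ(d)`; `r < φ(d)`; and `2 r ≤ φ(d)` if `(log p)^(2 φ(d)) < p`.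
For every `ε > 0`, for all large primes `p` and all odd `m ∣ p - 1`, `r ≤ (1/2 + ε) φ(d)`. -/
theorem result :
    (∀ p m : ℕ, p.Prime → 5 ≤ p → Odd m → m ∣ p - 1 →
      (orbit p m).card + (if m = 1 then 1 else 0) = Nat.totient ((p - 1) / m) ∧
      (p : ℝ) ^ (2 * (irregularIndices p m).card) ≤
        (p * Real.log p ^ 2) ^ Nat.totient ((p - 1) / m) ∧
      (irregularIndices p m).card < Nat.totient ((p - 1) / m) ∧
      (Real.log p ^ (2 * Nat.totient ((p - 1) / m)) < p →
        2 * (irregularIndices p m).card ≤ Nat.totient ((p - 1) / m))) ∧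
    (∀ ε : ℝ, 0 < ε → ∃ P : ℕ, ∀ p : ℕ, P ≤ p → p.Prime → ∀ m : ℕ, Odd m → m ∣ p - 1 →
      ((irregularIndices p m).card : ℝ) ≤ (1 / 2 + ε) * Nat.totient ((p - 1) / m)) :=
  ⟨fun p m hp hp5 hm hmp =>
    ⟨Pool.Agent.TH487.RP.card_orbit p m hp hp5 hm hmp,
      Pool.Agent.TH487.RP.main_ineq p m hp hp5 hm hmp,
      Pool.Agent.TH487.RP.irr_lt p m hp hp5 hm hmp,
      Pool.Agent.TH487.RP.irr_half p m hp hp5 hm hmp⟩,
    Pool.Agent.TH487.RP.irr_asymp⟩

end Pool.Agent.Results.MP_a3a416_nt.HalfOfEveryOrbit
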