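import Mathlib
import Pool.Agent.TH350.RC.Main

/-!
# Many regular indices in every residue class

Let `d ≥ 1` and let `p > d^φ(2d)` be prime.  For every residue class `c` modulo `d` and every
`K ≤ (p - 3) / 2` the number `s` of the `m ≤ K` with `m ≡ c (mod d)` such that `p` does not divide
the numerator of the Bernoulli number `B_{2m}` satisfies `K < 4^(d-1) (s + 2)^2`, that is
`s > 2^(1-d) √K - 2`.

Outline.  The part of `x / (e^x - 1) + x / 2` with exponents `2m`, `m ≡ c (mod d)`, is a quotient of
exponential polynomials with the `2^d` frequencies `∑_{j ∈ J} η^j`, `J ⊆ {0, …, d-1}`, `η^d = -1`.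
If only `s` of its coefficients up to degree `2K` are not zero modulo `p`, this gives an exponential
polynomial over a field of characteristic `p` with at most `s + 2` monomials for each frequency
which vanishes to the order `2K + 2`.  The new ingredient is a zero estimate
(`Pool/Agent/TH350/RC/ZE.lean`): if `f = ∑_{l ≤ L} ∑_{i ≤ n} c_{l,i} x^{T_i} e^{Λ_l x}` vanishes to
the order `M` then `M ≤ T_i + L (L - 1) n^2 / 2` whenever `c_{l,i} ≠ 0`; the degrees `T_i` of the
monomials may be arbitrarily large.  It is proved with the generalised Wronskian of the functions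
`x^{T_i} e^{Λ_l x}`, a monomial times a polynomial whose leading coefficient is computed by a
confluent Vandermonde determinant.

The file `ResidueClasses` of this problem, from which the residue field and the identity for the
series are taken (`Pool/Agent/H582R5/RP/`), gives one `m` with these properties between `a` and
`2^(d-1) (2a + 1)`, so a number of the order `log K` up to `K`.
-/

set_option autoImplicit false

namespace Pool.Agent.Results.MP_a3a416_nt.ManyRegularInClasses

/-- Let `d ≥ 1` and let `p > d^φ(2d)` be prime. For every residue class `c` modulo `d` and every `K`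
with `2K + 3 ≤ p` the number `s` of the `m`, `1 ≤ m ≤ K`, `m ≡ c (mod d)`, such that `p` does not
divide the numerator of the Bernoulli number `B_{2m}` satisfies `K < 4^(d-1) (s + 2)^2`. -/
theorem result (p d : ℕ) (hp : p.Prime) (hd : 1 ≤ d) (hpd : d ^ Nat.totient (2 * d) < p)
    (c : ℤ) (K : ℕ) (hK : 2 * K + 3 ≤ p) :
    K < 4 ^ (d - 1) * (((Finset.Icc 1 K).filter (fun m : ℕ => (m : ℤ) ≡ c [ZMOD d] ∧
      ¬ ((p : ℤ) ∣ (bernoulli (2 * m)).num))).card + 2) ^ 2 :=
  Pool.Agent.TH350.RC.main p d hp hd hpd c K hK

end Pool.Agent.Results.MP_a3a416_nt.ManyRegularInClasses
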