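import Mathlib
import Pool.Agent.TH350.RC.SumReg

/-!
# Every regular index is a sum of two regular indices in many ways

Call `i`, `1 ≤ i ≤ (p - 3) / 2`, a regular index of the prime `p` if `p` does not divide the
numerator of `B_{2i}`.  If `k ≥ 2` is a regular index then the number `r` of the pairs `(i, k - i)`
of regular indices satisfies `4 k ≤ 9 r (r + 1)`, so `r > (2/3) √k - 1`.

Outline.  Put `w_i = B_{2i} / (2i)! * B_{2k-2i} / (2k-2i)!`.  The addition theorem of `coth` gives the
identity of polynomials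
`∑_{i=0}^k w_i ((X+1)^{2i} (X^{2k-2i} + X) - (X+1) X^{2i}) = 0`
(`Pool/Agent/TH350/RC/AddF.lean`), which can be read modulo `p`.  The terms `i = 0` and `i = k`
together are `w_0 ((X+1)^{2k+1} - X^{2k+1} - 1)`.  So, if `p` does not divide `B_{2k}`,
`(X+1)^{2k+1}` is a linear combination modulo `p` of the `3 r + 2` polynomials `1`, `X^{2k+1}`,
`X^{2i} (X+1)`, `X (X+1)^{2i}`, `X^{2k-2i} (X+1)^{2i}`, where `i` runs through the `r` indices with
`w_i ≠ 0`.  A zero estimate for sums of few polynomials `X^e (X+1)^a` of degree `< p` in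
characteristic `p` (`Pool/Agent/TH350/RC/WZ.lean`, proved with a Wronskian) bounds the order of
vanishing at `-1` by `(3r+2)(3r+1)/2`.
-/

set_option autoImplicit false

namespace Pool.Agent.Results.MP_a3a416_nt.SumsOfRegularIndices

/-- Let `p` be a prime and let `k ≥ 2`, `2k ≤ p - 3`, be such that `p` does not divide the numerator
of the Bernoulli number `B_{2k}`. Then the number `r` of the `i`, `0 < i < k`, such that `p` divides
neither the numerator of `B_{2i}` nor the numerator of `B_{2(k-i)}` satisfies `4k ≤ 9r(r+1)`. -/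
theorem result (p : ℕ) (hp : p.Prime) (k : ℕ) (hk : 2 ≤ k) (hkp : 2 * k + 3 ≤ p)
    (hreg : ¬ ((p : ℤ) ∣ (bernoulli (2 * k)).num)) (r : ℕ)
    (hr : r = ((Finset.Ioo 0 k).filter (fun i : ℕ => ¬ ((p : ℤ) ∣ (bernoulli (2 * i)).num) ∧
      ¬ ((p : ℤ) ∣ (bernoulli (2 * (k - i))).num))).card) :
    4 * k ≤ 9 * (r * (r + 1)) := by
  have : Fact p.Prime := ⟨hp⟩
  subst hr
  refine Pool.Agent.TH350.SumReg.main (p := p) k hk hkp hreg _ ?_ ?_
  · intro i h1 h2 h3 h4
    rw [Finset.mem_filter, Finset.mem_Ioo]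
    exact ⟨⟨h1, h2⟩, h3, h4⟩
  · intro i hi
    rw [Finset.mem_filter, Finset.mem_Ioo] at hi
    exact hi.1

end Pool.Agent.Results.MP_a3a416_nt.SumsOfRegularIndices
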