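import Mathlib
import Pool.Agent.TH10.RP.TK5

/-!
# Sums of two (almost all primes) and of three (all large primes) regular indices

Call `m`, `0 ≤ m ≤ (p - 3) / 2`, a regular index of the prime `p` if `p` does not divide the
numerator of `B_{2m}`; the index `0` is regular. A prime is regular if all its indices are.

For `h = 2` and each `X` all primes `p` but `O(X ^ (1/2))`, and for each `h ≥ 3` all but finitely
many primes `p`, have the property that every `N ≤ min (X, (p - 3) / 2)` is a sum of `h` regular
indices, in at least `c N ^ (1/2)` ways for `h = 2`, `c N` ways for `h = 3`, `c N ^ 2` ways for `h = 4`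
and `c_h N ^ ((3 h - 4) / 4)` ways for `h ≥ 4`.

Existence.  Let `Φ_z = (e^t + z) / (e^t - z)` and
`F_a = (e^{at} + 1) / (e^{at} - 1) = (1 / a) ∑_{z^a = 1} Φ_z`, series over the algebraic closure of
`F_p`.

`h = 3`.  Let `Λ` be the coefficient at `t ^ (2 N - 3)`.  If `N` is not a sum of three regular
indices then `Λ (F_a F_b F_c) = 0` for all `a, b, c`.
1. By induction on `m` one gets `Λ (Φ_z) = 0` for all `z` of order `m`
   (`main_ind` in `Pool/Agent/TH10/RP/TP2.lean`): for `a, b < m` prime to `m` the partial fractions
   of `F_m F_a F_b` give `∑_z F_a(z) F_b(z) Λ (Φ_z) = 0`, `z` of order `m`; the double poles, at the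
   `z` with `z ^ gcd (a, b) = 1`, are controlled by the relations `∑_z F_c(z) Λ (Φ_z ^ 2) = 0`, `z` of
   order dividing `g`, which come from `F_g ^ 2 F_c`.
2. The products `F_a F_b` span all even functions on the set of the `z` of order `m`
   (`Pool/Agent/TH10/RP/TJ3.lean`): otherwise the space spanned by the `F_a` would be isotropic for a
   nondegenerate form on the odd functions, so of dimension at most one half of theirs; but its
   codimension modulo `p` is less than one half, as `p ^ (2 codim)` divides a Gram determinant
   which is not zero (Chowla and Okada) and small (`TJ5.lean`, `Multi.lean`).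
3. `(1 - z) ^ (2 N - 2) Λ (Φ_z)` is a polynomial in `z` of degree at most `2 N - 2` with a nonzero
   value at `1` (`TJ4.lean`), and it would have too many zeros.

`h = 2`.  Let `Λ` be the coefficient at `t ^ (2 N - 2)`.  If `N` is not a sum of two regular indices
then `Λ (F_a F_b) = 0` for all `a, b`, hence `∑_z F_a(z) Λ (Φ_z) = 0` over the `z` of order `m`
(`TK3.lean`), so `Λ (Φ_z) = 0` for the `z` of all those orders `m` for which the `F_a` have full rank
modulo `p` (`TK1.lean`).  The defects of rank, for one `m` and all primes `p` together, are bounded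
by the one Gram determinant (`sum_dn` in `Defect.lean`), so for all but `O(X ^ (1/2))` primes the
orders `m ≤ 16 √N` with a defect are few (`TK2.lean`) and there are again too many zeros.

The number of ways: see `PPlus.lean` (a number which is a sum of two regular indices is so in more
than `√(2N) / 3` ways), `TP6.lean` (`h = 3`), `Four.lean` and `General.lean` (`h ≥ 4`).
-/

set_option autoImplicit false

namespace Pool.Agent.Results.MP_a3a416_nt.ThreeRegularIndices

open Pool.Agent.TH10.RP

/-- For every `h ≥ 2` there is `C` such that for every `X` and every finite set `S` of primes `p` such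
that for some `N ≤ X`, `N ≤ (p - 3) / 2`, the number `t` of the `h`-tuples of natural numbers `x i`
with sum `N` such that `p` divides none of the numerators of the Bernoulli numbers `B_{2 (x i)}`
satisfies `C t ^ 4 < N ^ e`, where `e = 4` if `h = 3` and `e = 3 h - 4` if not, one has
`|S| ^ 2 ≤ C X ^ (3 - h)` (truncated subtraction: the right side is `C X` for `h = 2` and `C` for
`h ≥ 3`). -/
theorem result : ∀ h : ℕ, 2 ≤ h → ∃ C : ℕ, ∀ (X : ℕ) (S : Finset ℕ),
    (∀ p ∈ S, p.Prime ∧ ∃ N ≤ X, 2 * N + 3 ≤ p ∧
      C * ((Finset.Nat.antidiagonalTuple h N).filter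
        (fun x : Fin h → ℕ => ∀ i, ¬ ((p : ℤ) ∣ (bernoulli (2 * x i)).num))).card ^ 4
        < N ^ (if h = 3 then 4 else 3 * h - 4)) →
    S.card ^ 2 ≤ C * X ^ (3 - h) := by
  intro h hh
  obtain ⟨C, hC⟩ := final h hh
  refine ⟨C, fun X S hS => hC X S fun p hp => ?_⟩
  obtain ⟨h1, N, h2, h3, h4⟩ := hS p hp
  refine ⟨h1, N, h2, h3, ?_⟩
  have e : (Finset.Nat.antidiagonalTuple h N).filter
      (fun x : Fin h → ℕ => ∀ i, ¬ ((p : ℤ) ∣ (bernoulli (2 * x i)).num)) = tup p h N := by
    unfold tup
    congr
  rw [e] at h4
  exact h4

end Pool.Agent.Results.MP_a3a416_nt.ThreeRegularIndices
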